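import Pool.Agent.Lib.MP_c7af3c_ag.T2C.IfaceB
import Pool.Agent.Lib.MP_c7af3c_ag.T2C.H11.Hall

/-!
# MP_c7af3c_ag, project T2C: row NSING (helper56)
All components of the tuple but one are multiples of the conic: reduction to the normal forms of
one form. A pair `(L, B)` of the space `M` is replaced by the matrix `L + B m0 m0 / d m0`.
-/

set_option autoImplicit false

namespace Pool.Agent.T2C.H56

open MvPolynomial Pool.Agent.Gen Pool.Agent.Sharp Pool.Agent.Edge
open Pool.Agent.T2 (S3 mulS mem_mulS QclStatement)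
open Pool.Agent.T2C.H8 (T3 HomC sm mulC mem_mulC)
open Pool.Agent.Sharp.H75 (af)
open Pool.Agent.Edge.H65 (ssub)

section

variable {K : Type} [Field K]

/-- the scalar matrix -/
def sc (a : K) : Fin 3 → Fin 3 → K := fun j i => if j = i then a else 0

theorem sc_add (a b : K) : sc (a + b) = sc a + sc b := by
  funext j i
  simp only [sc, Pi.add_apply]
  split_ifs <;> simp

theorem sc_smul (a b : K) : sc (a * b) = a • sc b := by
  funext j i
  simp only [sc, Pi.smul_apply, smul_eq_mul]
  split_ifs <;> simp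

theorem af_add' (A B : Fin 3 → Fin 3 → K) (f : MvPolynomial (Fin 3) K) :
    af (A + B) f = af A f + af B f := by
  unfold af
  rw [← Finset.sum_add_distrib]
  refine Finset.sum_congr rfl fun p _ => ?_
  rw [Pi.add_apply, H75.lf_add, add_mul]

theorem lf_sc (a : K) (p : Fin 3) : H75.lf (sc a p) = C a * X p := by
  unfold H75.lf
  rw [Finset.sum_eq_single p]
  · simp [sc]
  · intro q _ hq
    simp [sc, Ne.symm hq]
  · intro h; exact absurd (Finset.mem_univ _) h

theorem af_sc (a : K) {f : MvPolynomial (Fin 3) K} {e : ℕ} (hf : f.IsHomogeneous e) :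
    af (sc a) f = C (a * e) * f := by
  have h := hf.sum_X_mul_pderiv
  unfold af
  simp only [lf_sc, mul_assoc]
  rw [← Finset.mul_sum, h, map_mul, nsmul_eq_mul, mul_assoc]
  simp

theorem sc_dot (a : K) (y : Fin 3 → K) (j : Fin 3) : ∑ i, sc a j i * y i = a * y j := by
  rw [Finset.sum_eq_single j]
  · simp [sc]
  · intro i _ hi
    simp [sc, Ne.symm hi]
  · intro h; exact absurd (Finset.mem_univ _) h

theorem hom_zero {f : MvPolynomial (Fin 3) K} (hf : f.IsHomogeneous 0) :
    f = C (coeff 0 f) := by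
  have h1 : f.totalDegree = 0 := by
    by_cases hz : f = 0
    · rw [hz, totalDegree_zero]
    · exact hf.totalDegree hz
  exact totalDegree_eq_zero_iff_eq_C.1 h1

/-- the matrices `B` form a space of finite dimension -/
theorem finite_BF {c : ℕ} (d : Fin c → ℕ) : Module.Finite K (BF K (Fin 3) d) := by
  have h3 : ∀ e, Module.Finite K (S3 K e) := fun e => H65.finite_hom3 K e
  have hm : ∀ (B : BF K (Fin 3) d) (m m' : Fin c), B.1 m m' ∈ S3 K (d m - d m') := by
    intro B m m'
    by_cases h : d m' ≤ d m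
    · exact (B.2 m m').1 h
    · rw [(B.2 m m').2 (not_le.1 h)]
      exact Submodule.zero_mem _
  let j : BF K (Fin 3) d →ₗ[K] ((m m' : Fin c) → S3 K (d m - d m')) :=
    { toFun := fun B m m' => ⟨B.1 m m', hm B m m'⟩
      map_add' := fun _ _ => rfl
      map_smul' := fun _ _ => rfl }
  refine Module.Finite.of_injective j ?_
  intro B B' h
  apply Subtype.ext
  funext m m'
  exact congrArg Subtype.val (congrFun (congrFun h m) m')

/-- the matrix of a pair -/
noncomputable def lin {c : ℕ} (d : Fin c → ℕ) (m0 : Fin c) :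
    ((Fin 3 → Fin 3 → K) × (Fin c → Fin c → MvPolynomial (Fin 3) K)) →ₗ[K]
      (Fin 3 → Fin 3 → K) where
  toFun a := a.1 + sc (coeff 0 (a.2 m0 m0) * (d m0 : K)⁻¹)
  map_add' a b := by
    have h : coeff 0 ((a + b).2 m0 m0) * (d m0 : K)⁻¹ =
        coeff 0 (a.2 m0 m0) * (d m0 : K)⁻¹ + coeff 0 (b.2 m0 m0) * (d m0 : K)⁻¹ := by
      rw [Prod.snd_add, Pi.add_apply, Pi.add_apply, coeff_add, add_mul]
    rw [h, sc_add, Prod.fst_add]
    abel
  map_smul' r a := by
    have h : coeff 0 ((r • a).2 m0 m0) * (d m0 : K)⁻¹ =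
        r * (coeff 0 (a.2 m0 m0) * (d m0 : K)⁻¹) := by
      rw [Prod.smul_snd, Pi.smul_apply, Pi.smul_apply, coeff_smul, smul_eq_mul, mul_assoc]
    rw [h, sc_smul, Prod.smul_fst, RingHom.id_apply, smul_add]

theorem lin_apply {c : ℕ} (d : Fin c → ℕ) (m0 : Fin c)
    (a : (Fin 3 → Fin 3 → K) × (Fin c → Fin c → MvPolynomial (Fin 3) K)) :
    lin d m0 a = a.1 + sc (coeff 0 (a.2 m0 m0) * (d m0 : K)⁻¹) := rfl

/-- the kernel embeds in the space of the matrices `B` -/
theorem two_le {c : ℕ} {d : Fin c → ℕ} (m0 : Fin c)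
    {M : Submodule K ((Fin 3 → Fin 3 → K) × (Fin c → Fin c → MvPolynomial (Fin 3) K))}
    (hdim : Module.finrank K (BF K (Fin 3) d) + 2 ≤ Module.finrank K M)
    (hbf : ∀ a ∈ M, a.2 ∈ BF K (Fin 3) d) : 2 ≤ Module.finrank K (M.map (lin d m0)) := by
  have hMf : Module.Finite K M := Module.finite_of_finrank_pos (by omega)
  have hBf : Module.Finite K (BF K (Fin 3) d) := finite_BF d
  let ψ : M →ₗ[K] M.map (lin d m0) := (lin d m0).submoduleMap M
  have h1 := LinearMap.finrank_range_add_finrank_ker ψ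
  have h2 : LinearMap.range ψ = ⊤ :=
    LinearMap.range_eq_top.2 (LinearMap.submoduleMap_surjective (lin d m0) M)
  rw [h2, finrank_top] at h1
  let j : LinearMap.ker ψ →ₗ[K] BF K (Fin 3) d :=
    ((LinearMap.snd K _ _).comp (M.subtype.comp (LinearMap.ker ψ).subtype)).codRestrict _
      fun u => hbf _ u.1.2
  have h3 : Module.finrank K (LinearMap.ker ψ) ≤ Module.finrank K (BF K (Fin 3) d) := by
    refine LinearMap.finrank_le_finrank_of_injective (f := j) ?_
    intro u v huv
    have e : ∀ w : LinearMap.ker ψ,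
        w.1.1.1 + sc (coeff 0 (w.1.1.2 m0 m0) * (d m0 : K)⁻¹) = 0 := fun w =>
      congrArg Subtype.val (LinearMap.mem_ker.1 w.2)
    have h4 : u.1.1.2 = v.1.1.2 := congrArg Subtype.val huv
    have h5 := e u
    have h6 := e v
    rw [h4] at h5
    have h7 : u.1.1.1 = v.1.1.1 := add_right_cancel (h5.trans h6.symm)
    exact Subtype.ext (Subtype.ext (Prod.ext h7 h4))
  omega

end

theorem nsing : NsingStatement := by
  intro hN hQ h1 h2 h3 h4 K _ _ _ n c d q f y hT hNr M hM m0 hm0 hm
  classical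
  have hd0 : (d m0 : K) ≠ 0 := by
    have : d m0 ≠ 0 := by omega
    exact_mod_cast this
  have hS : StbE (d m0 - 2) q (f m0) y (M.map (lin d m0)) := by
    refine ⟨two_le m0 hM.dim hM.bf, ?_, ?_, ?_⟩
    · rintro _ ⟨a, ha, rfl⟩
      obtain ⟨e, he⟩ := hM.fy a ha
      refine ⟨e + coeff 0 (a.2 m0 m0) * (d m0 : K)⁻¹, fun j => ?_⟩
      rw [lin_apply]
      simp only [Pi.add_apply, add_mul, Finset.sum_add_distrib]
      rw [he j, sc_dot]
    · rintro _ ⟨a, ha, rfl⟩
      obtain ⟨e, he⟩ := hM.fq a ha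
      refine ⟨e + coeff 0 (a.2 m0 m0) * (d m0 : K)⁻¹ * 2, ?_⟩
      rw [lin_apply, af_add', he, af_sc _ hNr.hq, map_add, add_mul, Nat.cast_ofNat]
    · rintro _ ⟨a, ha, rfl⟩
      obtain ⟨b, hb, hbe⟩ := mem_mulC.1 (hM.ff a ha)
      have h5 := congrFun hbe m0
      have h6 : a.2 m0 m0 = C (coeff 0 (a.2 m0 m0)) := by
        apply hom_zero
        have := (hM.bf a ha m0 m0).1 le_rfl
        rwa [Nat.sub_self] at this
      have h7 : af (lin d m0 a) (f m0) =
          q * b m0 - ∑ m ∈ Finset.univ.erase m0, a.2 m0 m * f m := by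
        rw [lin_apply, af_add', af_sc _ (hNr.hf m0), mul_assoc, inv_mul_cancel₀ hd0, mul_one,
          ← h6]
        have h8 : sm q b m0 = af a.1 (f m0) + ∑ m, a.2 m0 m * f m := h5
        rw [← Finset.add_sum_erase _ _ (Finset.mem_univ m0)] at h8
        have h9 : sm q b m0 = q * b m0 := rfl
        rw [h9] at h8
        rw [h8]
        ring
      rw [h7]
      refine Submodule.sub_mem _ (mem_mulS.2 ⟨b m0, hb m0, rfl⟩) (Submodule.sum_mem _ ?_)
      intro m hmm
      obtain ⟨hlt, hmq⟩ := hm m (Finset.ne_of_mem_erase hmm)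
      obtain ⟨w, hw, hwe⟩ := mem_mulS.1 hmq
      refine mem_mulS.2 ⟨a.2 m0 m * w, ?_, ?_⟩
      · have h10 := ((hM.bf a ha m0 m).1 hlt.le).mul hw
        have h11 := hT.two m
        have h12 : d m0 - d m + (d m - 2) = d m0 - 2 := by omega
        rwa [h12] at h10
      · rw [← hwe]
        ring
  have hdd : d m0 - 2 + 2 = d m0 := by omega
  have hdd1 : d m0 - 2 + 1 = d m0 - 1 := by omega
  obtain ⟨g, q0, f0, y0, a, b, hC⟩ := hN hQ h1 h2 h3 h4 K (d m0 - 2) q (f m0) y (by omega)
    hNr.hq hNr.q0 (by rw [hdd]; exact hNr.hf m0) hNr.y0 hNr.yq (hNr.yf m0) (by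
      intro z hz1 hz0 hzq hfz
      apply hNr.noln z hz1 hz0
      have h5 : ∀ m, ∃ w : MvPolynomial (Fin 3) K, w.IsHomogeneous (d m - 1) ∧ z * w = f m := by
        intro m
        apply mem_mulS.1
        by_cases hmm : m = m0
        · rw [hmm, ← hdd1]
          exact hfz
        · have h6 : q ∣ f m := H11.dvd_of_mem_mulS (hm m hmm).2
          exact H11.mem_mulS_of_dvd hz1 (hNr.hf m) (hzq.trans h6)
      choose w hw hwe using h5
      exact mem_mulC.2 ⟨w, hw, funext hwe⟩) (M.map (lin d m0)) hS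
  refine ⟨g, fun m m' => if m = m' then 1 else 0, fun m m' => if m = m' then 1 else 0, q0,
    fun m => if m = m0 then f0 else 0, y0, a, b, ?_⟩
  have hid : (fun m m' => if m = m' then (1 : MvPolynomial (Fin 3) K) else 0) ∈
      BF K (Fin 3) d := by
    intro m m'
    constructor
    · intro _
      dsimp only
      split_ifs with h
      · rw [h, Nat.sub_self]
        exact isHomogeneous_one _ _
      · exact isHomogeneous_zero _ _ _
    · intro h
      dsimp only
      rw [if_neg]
      rintro rfl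
      omega
  refine ⟨hC.gi, hC.a0, hC.hq, hid, hid, ?_, ?_, hC.hy⟩
  · intro m m'
    rw [Finset.sum_eq_single m]
    · rw [if_pos rfl, one_mul]
    · intro j _ hj
      rw [if_neg (Ne.symm hj), zero_mul]
    · intro h; exact absurd (Finset.mem_univ _) h
  · have h5 : ∀ m, ∃ w : MvPolynomial (Fin 3) K, w.IsHomogeneous (d m - 2) ∧
        MvPolynomial.map (Int.castRingHom K) q0 * w =
          ssub g (f m) - MvPolynomial.map (Int.castRingHom K) (if m = m0 then f0 else 0) := by
      intro m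
      by_cases hmm : m = m0
      · subst hmm
        rw [if_pos rfl]
        exact mem_mulS.1 hC.hf
      · rw [if_neg hmm, map_zero, sub_zero]
        obtain ⟨w, hw, hwe⟩ := mem_mulS.1 (hm m hmm).2
        refine ⟨C a * ssub g w, ?_, ?_⟩
        · have h6 := (isHomogeneous_C (Fin 3) a).mul (H65.ssub_hom g hw)
          rwa [zero_add] at h6
        · rw [← hwe, map_mul, hC.hq]
          ring
    choose w hw hwe using h5
    refine mem_mulC.2 ⟨w, hw, ?_⟩
    funext m
    have h7 : bmul (fun m m' => if m = m' then (1 : MvPolynomial (Fin 3) K) else 0)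
        (fun m => ssub g (f m)) m = ssub g (f m) := by
      change ∑ m', (if m = m' then (1 : MvPolynomial (Fin 3) K) else 0) * ssub g (f m') = _
      rw [Finset.sum_eq_single m]
      · rw [if_pos rfl, one_mul]
      · intro j _ hj
        rw [if_neg (Ne.symm hj), zero_mul]
      · intro h; exact absurd (Finset.mem_univ _) h
    rw [Pi.sub_apply, h7]
    exact hwe m

end Pool.Agent.T2C.H56
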